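import Mathlib

set_option autoImplicit false

/-!
Avoshifts for convex sets (problem MP_d66889_lc).

For every `d`, every finite alphabet `A` and every subshift `X ⊆ A^(ℤ^d)`, the following are
equivalent: `X` is avo for convex sets; `X` is SFT on convex sets; and the versions of these two
properties in which the convex sets may be infinite.
-/

namespace Pool.Agent.Results.MP_d66889_lc.AvoIffSFTConvex

/-- Configurations in `A^(ℤ^d)`. -/
abbrev Config (d : ℕ) (A : Type*) := (Fin d → ℤ) → A

/-- The shift `σ_u`, `σ_u(x)_v = x_(v - u)`. -/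
def shift {d : ℕ} {A : Type*} (u : Fin d → ℤ) (x : Config d A) : Config d A :=
  fun v => x (v - u)

/-- A subshift: a closed, shift-invariant set of configurations. -/
def IsSubshift {d : ℕ} {A : Type*} [TopologicalSpace A] (X : Set (Config d A)) : Prop :=
  IsClosed X ∧ ∀ u : Fin d → ℤ, ∀ x ∈ X, shift u x ∈ X

/-- A map `D → A` with `D ⊆ ℤ^d` (possibly infinite). -/
structure PrePattern (d : ℕ) (A : Type*) where
  /-- the domain `D` -/
  supp : Set (Fin d → ℤ)
  /-- the map `D → A` -/
  val : supp → A

/-- A pattern is a map `D → A` with `D ⊂ ℤ^d` finite. -/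
def PrePattern.IsPattern {d : ℕ} {A : Type*} (p : PrePattern d A) : Prop := p.supp.Finite

/-- `p` is globally valid in `X`: `p = x|_D` for some `x ∈ X`. -/
def PrePattern.GloballyValid {d : ℕ} {A : Type*} (p : PrePattern d A) (X : Set (Config d A)) :
    Prop :=
  ∃ x ∈ X, ∀ w : p.supp, x w = p.val w

/-- The translate of `q` by `u` occurs in the configuration `x`. -/
def OccursInConfig {d : ℕ} {A : Type*} (q : PrePattern d A) (u : Fin d → ℤ) (x : Config d A) :
    Prop :=
  ∀ w : q.supp, x (w + u) = q.val w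

/-- `X_F`: the configurations in which no translate of any `q ∈ F` occurs. -/
def shiftOf {d : ℕ} {A : Type*} (F : Set (PrePattern d A)) : Set (Config d A) :=
  {x | ∀ q ∈ F, ∀ u : Fin d → ℤ, ¬ OccursInConfig q u x}

/-- `p` is locally valid for `F`: no translate of any `q ∈ F` whose support lies inside the
support of `p` occurs in `p`. -/
def PrePattern.LocallyValid {d : ℕ} {A : Type*} (p : PrePattern d A) (F : Set (PrePattern d A)) :
    Prop :=
  ∀ q ∈ F, ∀ u : Fin d → ℤ, ∀ h : ∀ w ∈ q.supp, w + u ∈ p.supp,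
    ¬ ∀ w : q.supp, p.val ⟨w + u, h w w.2⟩ = q.val w

/-- The inclusion `ℤ^d → ℝ^d`. -/
def toReal {d : ℕ} (v : Fin d → ℤ) : Fin d → ℝ := fun i => (v i : ℝ)

/-- `C ⊆ ℤ^d` is convex: `C = conv_ℝ(C) ∩ ℤ^d`. -/
def IsConvexZ {d : ℕ} (C : Set (Fin d → ℤ)) : Prop :=
  C = {v | toReal v ∈ convexHull ℝ (toReal '' C)}

/-- `E_X(x, D, v) = {a ∈ A : x|_D ∪ {v ↦ a} is globally valid in X}`. -/
def E {d : ℕ} {A : Type*} (X : Set (Config d A)) (x : Config d A) (D : Set (Fin d → ℤ))
    (v : Fin d → ℤ) : Set A :=
  {a | ∃ y ∈ X, (∀ w ∈ D, y w = x w) ∧ y v = a}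

/-- `X` is avo for convex sets: there is a finite `N` such that for every finite convex `C`,
every `v ∉ C` with `C ∪ {v}` convex and every `x ∈ X`, `E_X(x,C,v) = E_X(x, C ∩ (v+N), v)`. -/
def AvoForConvexSets {d : ℕ} {A : Type*} (X : Set (Config d A)) : Prop :=
  ∃ N : Set (Fin d → ℤ), N.Finite ∧ ∀ C : Set (Fin d → ℤ), C.Finite → IsConvexZ C →
    ∀ v : Fin d → ℤ, v ∉ C → IsConvexZ (C ∪ {v}) → ∀ x ∈ X,
      E X x C v = E X x (C ∩ {w | ∃ n ∈ N, w = v + n}) v

/-- As `AvoForConvexSets`, but with arbitrary (finite or infinite) convex sets `C`. -/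
def AvoForAllConvexSets {d : ℕ} {A : Type*} (X : Set (Config d A)) : Prop :=
  ∃ N : Set (Fin d → ℤ), N.Finite ∧ ∀ C : Set (Fin d → ℤ), IsConvexZ C →
    ∀ v : Fin d → ℤ, v ∉ C → IsConvexZ (C ∪ {v}) → ∀ x ∈ X,
      E X x C v = E X x (C ∩ {w | ∃ n ∈ N, w = v + n}) v

/-- `X` is SFT on convex sets: there is a finite set `F` of patterns with `X = X_F` such that
every pattern on a finite convex set which is locally valid for `F` is globally valid in `X`. -/
def SFTOnConvexSets {d : ℕ} {A : Type*} (X : Set (Config d A)) : Prop :=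
  ∃ F : Set (PrePattern d A), F.Finite ∧ (∀ q ∈ F, q.IsPattern) ∧ X = shiftOf F ∧
    ∀ p : PrePattern d A, p.IsPattern → IsConvexZ p.supp → p.LocallyValid F → p.GloballyValid X

/-- As `SFTOnConvexSets`, but with arbitrary (finite or infinite) convex sets. -/
def SFTOnAllConvexSets {d : ℕ} {A : Type*} (X : Set (Config d A)) : Prop :=
  ∃ F : Set (PrePattern d A), F.Finite ∧ (∀ q ∈ F, q.IsPattern) ∧ X = shiftOf F ∧
    ∀ p : PrePattern d A, IsConvexZ p.supp → p.LocallyValid F → p.GloballyValid X

section Aux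

variable {d : ℕ} {A : Type*}

lemma isConvexZ_iff {C : Set (Fin d → ℤ)} :
    IsConvexZ C ↔ ∀ v : Fin d → ℤ, toReal v ∈ convexHull ℝ (toReal '' C) → v ∈ C := by
  constructor
  · intro h v hv
    rw [h]
    exact hv
  · intro h
    apply Set.Subset.antisymm
    · intro v hv
      exact subset_convexHull ℝ _ ⟨v, hv, rfl⟩
    · intro v hv
      exact h v hv

lemma IsConvexZ.inter {C D : Set (Fin d → ℤ)} (hC : IsConvexZ C) (hD : IsConvexZ D) :
    IsConvexZ (C ∩ D) := by
  rw [isConvexZ_iff] at hC hD ⊢
  intro v hv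
  exact ⟨hC v (convexHull_mono (Set.image_mono Set.inter_subset_left) hv),
    hD v (convexHull_mono (Set.image_mono Set.inter_subset_right) hv)⟩

/-- A finite nonempty convex set has a point whose removal leaves it convex. -/
lemma exists_erase_convex (C : Set (Fin d → ℤ)) (hfin : C.Finite) (hC : IsConvexZ C)
    (hne : C.Nonempty) : ∃ v ∈ C, IsConvexZ (C \ {v}) := by
  obtain ⟨v, hv, hmax⟩ := Set.exists_max_image C (fun w => ∑ i, w i * w i) hfin hne
  refine ⟨v, hv, ?_⟩
  rw [isConvexZ_iff] at hC ⊢
  have key : toReal v ∉ convexHull ℝ (toReal '' (C \ {v})) := by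
    intro hmem
    have hsub : convexHull ℝ (toReal '' (C \ {v})) ⊆
        {w : Fin d → ℝ | ∑ i, w i * (v i : ℝ) < ∑ i, (v i : ℝ) * v i} := by
      apply convexHull_min
      · rintro _ ⟨w, hw, rfl⟩
        have h1 : ∑ i, w i * w i ≤ ∑ i, v i * v i := hmax w hw.1
        have h2 : 0 < ∑ i, (w i - v i) * (w i - v i) := by
          have hne' : ∃ i, w i ≠ v i := by
            by_contra hcon
            push Not at hcon
            exact hw.2 (funext hcon)
          obtain ⟨i, hi⟩ := hne'
          apply Finset.sum_pos'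
          · intro j _
            exact mul_self_nonneg _
          · exact ⟨i, Finset.mem_univ i, mul_self_pos.mpr (sub_ne_zero.mpr hi)⟩
        have h3 : ∑ i, (w i - v i) * (w i - v i) =
            ∑ i, w i * w i - 2 * ∑ i, w i * v i + ∑ i, v i * v i := by
          rw [Finset.mul_sum, ← Finset.sum_sub_distrib, ← Finset.sum_add_distrib]
          apply Finset.sum_congr rfl
          intro i _
          ring
        have h4 : ∑ i, w i * v i < ∑ i, v i * v i := by linarith
        show ∑ i, (w i : ℝ) * (v i : ℝ) < ∑ i, (v i : ℝ) * v i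
        exact_mod_cast h4
      · apply convex_halfSpace_lt
        constructor
        · intro x y
          simp [add_mul, Finset.sum_add_distrib]
        · intro c x
          simp [Finset.mul_sum, mul_assoc]
    have := hsub hmem
    simp [toReal] at this
  intro u hu
  refine ⟨hC u (convexHull_mono (Set.image_mono Set.sdiff_subset) hu), ?_⟩
  rintro rfl
  exact key hu

/-- The integer box `[-n, n]^d`. -/
def box (d : ℕ) (n : ℤ) : Set (Fin d → ℤ) := {w | ∀ i, -n ≤ w i ∧ w i ≤ n}

lemma box_finite (n : ℤ) : (box d n).Finite := by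
  have : box d n = Set.Icc (fun _ => -n) (fun _ => n) := by
    ext w
    constructor
    · intro h
      exact ⟨fun i => (h i).1, fun i => (h i).2⟩
    · intro h i
      exact ⟨h.1 i, h.2 i⟩
  rw [this]
  exact Set.finite_Icc _ _

lemma box_convex (n : ℤ) : IsConvexZ (box d n) := by
  rw [isConvexZ_iff]
  intro v hv
  have hsub : convexHull ℝ (toReal '' (box d n)) ⊆
      Set.Icc (fun _ => (-n : ℝ)) (fun _ => (n : ℝ)) := by
    apply convexHull_min
    · rintro _ ⟨w, hw, rfl⟩
      constructor
      · intro i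
        have := (hw i).1
        simp only [toReal]
        exact_mod_cast this
      · intro i
        have := (hw i).2
        simp only [toReal]
        exact_mod_cast this
    · exact convex_Icc _ _
  have h := hsub hv
  intro i
  have h1 := h.1 i
  have h2 := h.2 i
  simp only [toReal] at h1 h2
  exact ⟨by exact_mod_cast h1, by exact_mod_cast h2⟩

lemma exists_box (I : Finset (Fin d → ℤ)) : ∃ n : ℕ, ∀ w ∈ I, w ∈ box d n := by
  refine ⟨(∑ w ∈ I, ∑ i, |w i|).toNat, ?_⟩
  intro w hw i
  have h1 : |w i| ≤ ∑ j, |w j| :=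
    Finset.single_le_sum (f := fun j => |w j|) (fun j _ => abs_nonneg _) (Finset.mem_univ i)
  have h2 : ∑ j, |w j| ≤ ∑ w ∈ I, ∑ j, |w j| :=
    Finset.single_le_sum (f := fun w : Fin d → ℤ => ∑ j, |w j|)
      (fun w _ => Finset.sum_nonneg (fun j _ => abs_nonneg _)) hw
  have h3 : |w i| ≤ ((∑ w ∈ I, ∑ i, |w i|).toNat : ℤ) :=
    (h1.trans h2).trans (Int.self_le_toNat _)
  exact abs_le.mp h3

lemma patterns_finite [Finite A] (M : Set (Fin d → ℤ)) (hM : M.Finite) :
    {q : PrePattern d A | q.supp ⊆ M}.Finite := by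
  have h : {q : PrePattern d A | q.supp ⊆ M} ⊆
      ⋃ D ∈ {D : Set (Fin d → ℤ) | D ⊆ M},
        Set.range (fun f : D → A => (⟨D, f⟩ : PrePattern d A)) := by
    rintro ⟨D, f⟩ hq
    have hq' : D ⊆ M := hq
    simp only [Set.mem_iUnion]
    exact ⟨D, hq', f, rfl⟩
  refine Set.Finite.subset ?_ h
  refine Set.Finite.biUnion hM.finite_subsets (fun D hD => ?_)
  have : Finite D := (hM.subset hD).to_subtype
  exact Set.finite_range _

/-- avo for convex sets implies SFT on convex sets. -/
theorem avo_to_sft [Finite A] [TopologicalSpace A] [DiscreteTopology A]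
    (X : Set (Config d A)) (hX : IsSubshift X) (h : AvoForConvexSets X) :
    SFTOnConvexSets X := by
  classical
  obtain ⟨N, hNfin, hN⟩ := h
  obtain ⟨hclosed, hshift⟩ := hX
  set F : Set (PrePattern d A) := {q | q.supp ⊆ insert 0 N ∧ ¬ q.GloballyValid X} with hF
  have hFfin : F.Finite :=
    (patterns_finite (insert 0 N) (hNfin.insert 0)).subset (fun q hq => hq.1)
  -- locally valid patterns on finite convex sets are globally valid
  have key : ∀ k : ℕ, ∀ p : PrePattern d A, p.supp.Finite → p.supp.ncard = k →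
      IsConvexZ p.supp → p.LocallyValid F → p.GloballyValid X := by
    intro k
    induction k with
    | zero =>
      rintro ⟨D, f⟩ hfin hcard _ hloc
      simp only at hfin hcard
      have hD : D = ∅ := (Set.ncard_eq_zero hfin).mp hcard
      subst hD
      by_contra hng
      have hq : (⟨∅, f⟩ : PrePattern d A) ∈ F := ⟨by simp, hng⟩
      refine hloc _ hq 0 (by simp) ?_
      rintro ⟨w, hw⟩
      simp at hw
    | succ k ih =>
      rintro ⟨D, f⟩ hfin hcard hconv hloc
      simp only at hfin hcard hconv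
      have hne : D.Nonempty := by
        rw [Set.nonempty_iff_ne_empty]
        rintro rfl
        simp at hcard
      obtain ⟨v, hv, hconv'⟩ := exists_erase_convex D hfin hconv hne
      -- the restriction to `D \ {v}`
      let p' : PrePattern d A := ⟨D \ {v}, fun w => f ⟨w, w.2.1⟩⟩
      have hp'loc : p'.LocallyValid F := by
        intro q hq u hsub hocc
        exact hloc q hq u (fun w hw => (hsub w hw).1) hocc
      obtain ⟨x, hxX, hx⟩ := ih p' (hfin.subset Set.sdiff_subset) (by
        show (D \ {v}).ncard = k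
        rw [Set.ncard_sdiff_singleton_of_mem hv, hcard]
        rfl) hconv' hp'loc
      -- the local window
      let W : Set (Fin d → ℤ) := {w | w ∈ D ∧ (w = v ∨ ∃ n ∈ N, w = v + n)}
      let Q : Set (Fin d → ℤ) := {w | w + v ∈ W}
      let q : PrePattern d A := ⟨Q, fun w => f ⟨w + v, w.2.1⟩⟩
      have hqval : q.GloballyValid X := by
        by_contra hng
        have hqF : q ∈ F := by
          refine ⟨?_, hng⟩
          rintro w ⟨_, hw⟩
          rcases hw with h0 | ⟨n, hn, hwn⟩
          · left
            exact by simpa using h0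
          · right
            have : w = n := by
              have h2 : w + v = n + v := by rw [hwn, add_comm]
              exact add_right_cancel h2
            rw [this]
            exact hn
        exact hloc q hqF v (fun w hw => hw.1) (fun w => rfl)
      obtain ⟨y, hyX, hy⟩ := hqval
      have hyv : ∀ w (hw : w ∈ W), y (w - v) = f ⟨w, hw.1⟩ := by
        intro w hw
        have h1 : w - v ∈ Q := by
          show w - v + v ∈ W
          rw [sub_add_cancel]
          exact hw
        have h2 := hy ⟨w - v, h1⟩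
        simp only [q] at h2
        rw [h2]
        congr 2
        simp
      have hvW : v ∈ W := ⟨hv, Or.inl rfl⟩
      have hmem : f ⟨v, hv⟩ ∈ E X x ((D \ {v}) ∩ {w | ∃ n ∈ N, w = v + n}) v := by
        refine ⟨shift v y, hshift v y hyX, ?_, ?_⟩
        · rintro w ⟨hw, hn⟩
          have hwD : w ∈ D := hw.1
          have hwW : w ∈ W := ⟨hwD, Or.inr hn⟩
          have h1 : x w = f ⟨w, hwD⟩ := hx ⟨w, hw⟩
          rw [h1]
          exact hyv w hwW
        · exact hyv v hvW
      have hins : (D \ {v}) ∪ {v} = D := by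
        rw [Set.sdiff_union_self, Set.union_eq_left]
        exact Set.singleton_subset_iff.mpr hv
      rw [← hN (D \ {v}) (hfin.subset Set.sdiff_subset) hconv' v (by simp)
        (by rw [hins]; exact hconv) x hxX] at hmem
      obtain ⟨z, hzX, hz1, hz2⟩ := hmem
      refine ⟨z, hzX, ?_⟩
      rintro ⟨w, hw⟩
      simp only at hw ⊢
      by_cases hwv : w = v
      · subst hwv
        exact hz2
      · have hw' : w ∈ D \ {v} := ⟨hw, hwv⟩
        rw [hz1 w hw']
        exact hx ⟨w, hw'⟩
  refine ⟨F, hFfin, fun q hq => (hNfin.insert 0).subset hq.1, ?_,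
    fun p hpf hp hloc => key _ p hpf rfl hp hloc⟩
  apply Set.Subset.antisymm
  · intro x hx q hq u hocc
    apply hq.2
    refine ⟨shift (-u) x, hshift (-u) x hx, ?_⟩
    intro w
    have := hocc w
    simpa [shift] using this
  · intro x hx
    rw [← hclosed.closure_eq, mem_closure_iff]
    intro U hU hxU
    rw [isOpen_pi_iff] at hU
    obtain ⟨I, V, hV, hsub⟩ := hU x hxU
    -- a box containing `I`
    obtain ⟨n, hn⟩ := exists_box I
    let p : PrePattern d A := ⟨box d n, fun w => x w⟩
    have hp : p.GloballyValid X := by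
      refine key _ p (box_finite n) rfl (box_convex n) ?_
      intro q hq u hs hocc
      exact hx q hq u hocc
    obtain ⟨y, hyX, hy⟩ := hp
    refine ⟨y, hsub ?_, hyX⟩
    intro w hw
    have : y w = x w := hy ⟨w, hn w hw⟩
    rw [this]
    exact (hV w hw).2

/-- SFT on finite convex sets implies SFT on all convex sets (compactness). -/
theorem sft_to_sftAll [Finite A] [TopologicalSpace A] [DiscreteTopology A]
    (X : Set (Config d A)) (hX : IsSubshift X) (h : SFTOnConvexSets X) :
    SFTOnAllConvexSets X := by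
  classical
  obtain ⟨F, hFfin, hFpat, hXF, hF⟩ := h
  refine ⟨F, hFfin, hFpat, hXF, ?_⟩
  rintro ⟨D, f⟩ hconv hloc
  simp only at hconv
  let K : ℕ → Set (Config d A) := fun n =>
    X ∩ {x | ∀ w (hw : w ∈ D), w ∈ box d n → x w = f ⟨w, hw⟩}
  have hbox : ∀ n : ℕ, box d (n : ℤ) ⊆ box d ((n + 1 : ℕ) : ℤ) := by
    intro n w hw i
    have := hw i
    push_cast
    constructor <;> linarith [this.1, this.2]
  have hne : ∀ n, (K n).Nonempty := by
    intro n
    obtain ⟨x, hxX, hx⟩ := hF ⟨D ∩ box d n, fun w => f ⟨w, w.2.1⟩⟩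
      ((box_finite n).subset Set.inter_subset_right) (hconv.inter (box_convex n)) (by
        intro q hq u hsub hocc
        exact hloc q hq u (fun w hw => (hsub w hw).1) hocc)
    exact ⟨x, hxX, fun w hw hwb => hx ⟨w, hw, hwb⟩⟩
  have hclosed : ∀ n, IsClosed (K n) := by
    intro n
    apply hX.1.inter
    have : {x : Config d A | ∀ w (hw : w ∈ D), w ∈ box d n → x w = f ⟨w, hw⟩} =
        ⋂ w : Fin d → ℤ, ⋂ hw : w ∈ D, ⋂ _ : w ∈ box d n, {x : Config d A | x w = f ⟨w, hw⟩} := by
      ext x
      simp
    rw [this]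
    refine isClosed_iInter fun w => isClosed_iInter fun hw => isClosed_iInter fun _ => ?_
    exact isClosed_eq (continuous_apply w) continuous_const
  have hanti : ∀ n, K (n + 1) ⊆ K n := by
    rintro n x ⟨hx1, hx2⟩
    exact ⟨hx1, fun w hw hwb => hx2 w hw (hbox n hwb)⟩
  obtain ⟨x, hx⟩ := IsCompact.nonempty_iInter_of_sequence_nonempty_isCompact_isClosed K hanti hne
    (hclosed 0).isCompact hclosed
  rw [Set.mem_iInter] at hx
  refine ⟨x, (hx 0).1, ?_⟩
  rintro ⟨w, hw⟩
  obtain ⟨n, hn⟩ := exists_box {w}
  exact (hx n).2 w hw (hn w (by simp))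

/-- SFT on all convex sets implies avo for all convex sets. -/
theorem sftAll_to_avoAll (X : Set (Config d A)) (h : SFTOnAllConvexSets X) :
    AvoForAllConvexSets X := by
  classical
  obtain ⟨F, hFfin, hFpat, hXF, hF⟩ := h
  -- the window: all differences of points of supports of members of `F`
  let N : Set (Fin d → ℤ) := ⋃ q ∈ F, Set.image2 (fun s t => s - t) q.supp q.supp
  have hNfin : N.Finite :=
    Set.Finite.biUnion hFfin (fun q hq => Set.Finite.image2 _ (hFpat q hq) (hFpat q hq))
  refine ⟨N, hNfin, ?_⟩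
  intro C hC v hv hCv x hx
  apply Set.Subset.antisymm
  · rintro a ⟨y, hyX, hy1, hy2⟩
    exact ⟨y, hyX, fun w hw => hy1 w hw.1, hy2⟩
  · rintro a ⟨y, hyX, hy1, hy2⟩
    let p : PrePattern d A := ⟨C ∪ {v}, fun w => if (w : Fin d → ℤ) = v then a else x w⟩
    have hp : p.LocallyValid F := by
      intro q hq u hs hocc
      by_cases hvq : ∃ s ∈ q.supp, s + u = v
      · obtain ⟨s, hs', hsu⟩ := hvq
        have hyF : y ∈ shiftOf F := hXF ▸ hyX
        apply hyF q hq u
        intro w
        rw [← hocc w]
        show y (w + u) = if (w : Fin d → ℤ) + u = v then a else x (w + u)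
        split_ifs with hwv
        · rw [hwv]
          exact hy2
        · apply hy1
          have h1 : (w : Fin d → ℤ) + u ∈ C ∪ {v} := hs w w.2
          refine ⟨?_, (w : Fin d → ℤ) - s, ?_, ?_⟩
          · rcases h1 with h2 | h2
            · exact h2
            · exact absurd h2 hwv
          · simp only [N, Set.mem_iUnion]
            exact ⟨q, hq, w, w.2, s, hs', rfl⟩
          · rw [← hsu]
            abel
      · push Not at hvq
        have hxF : x ∈ shiftOf F := hXF ▸ hx
        apply hxF q hq u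
        intro w
        rw [← hocc w]
        show x (w + u) = if (w : Fin d → ℤ) + u = v then a else x (w + u)
        rw [if_neg (hvq w w.2)]
    obtain ⟨z, hzX, hz⟩ := hF p hCv hp
    refine ⟨z, hzX, ?_, ?_⟩
    · intro w hw
      have h1 : z w = if w = v then a else x w := hz ⟨w, Or.inl hw⟩
      rw [h1, if_neg]
      rintro rfl
      exact hv hw
    · have h1 : z v = if v = v then a else x v := hz ⟨v, Or.inr rfl⟩
      rw [h1, if_pos rfl]

end Aux

/-- For every `d`, every finite alphabet `A` and every subshift `X` of `A^(ℤ^d)` the following are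
equivalent: `X` is avo for convex sets; `X` is SFT on convex sets; `X` is avo for arbitrary
(possibly infinite) convex sets; `X` is SFT on arbitrary convex sets. -/
theorem result (d : ℕ) (A : Type*) [Finite A] [TopologicalSpace A] [DiscreteTopology A]
    (X : Set (Config d A)) (hX : IsSubshift X) :
    List.TFAE [AvoForConvexSets X, SFTOnConvexSets X, AvoForAllConvexSets X,
      SFTOnAllConvexSets X] := by
  tfae_have 1 → 2 := avo_to_sft X hX
  tfae_have 2 → 4 := sft_to_sftAll X hX
  tfae_have 4 → 3 := sftAll_to_avoAll X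
  tfae_have 3 → 1 := by
    rintro ⟨N, hN, h⟩
    exact ⟨N, hN, fun C _ hC => h C hC⟩
  tfae_finish

end Pool.Agent.Results.MP_d66889_lc.AvoIffSFTConvex
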